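import Pool.Agent.PSU.Main
import Pool.Agent.PSU.Grp

/-!
# The Main Conjecture of Sarnak and Xue for `SU(2,1)` over all orders `ℤ[√-d]`

For `d ≥ 1` let `Γ(q)` be the group of all `3 × 3` matrices `g` over `ℤ[√-d]` with `det g = 1`,
`g^* J g = J`, `J = diag(1, 1, -1)`, and `g ≡ 1 mod q`; let `W(q) = [Γ(1) : Γ(q)]`. For every `ε > 0`
there is `C` such that for all `q ≥ 1` and `T ≥ 1`
`#{g ∈ Γ(q) : ‖g‖ ≤ T} ≤ C (T^(4+ε) / W(q) + T^2)`.

Proof in outline. Write `δ` for the last diagonal entry and `τ` for the trace of the upper left block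
`M`. The pair `(δ, τ)` fixes the Gram matrix, for the form `x^2 + d y^2 + z^2`, of two integer vectors
which determine `M`; the number of pairs of integer vectors with a given Gram matrix is bounded by a
gluing argument, up to `T^ε`, by the square root `l` of the square part of its content, and `l`
divides `d` times an integer which depends only on `τ`. Congruence modulo `q` puts `(δ, τ)` in a set of
the expected size.
-/

set_option autoImplicit false

namespace Pool.Agent.Results.MP_06ba09_nt.PicardMainConjecture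

open Matrix Pool.Agent.PSU

/-- The Euclidean norm of a matrix over `ℤ[√-d]`: the square root of the sum of `x^2 + d y^2` over its
entries `x + y√-d`. -/
noncomputable def euclNorm (d : ℕ) (g : Matrix.SpecialLinearGroup (Fin 3) (Od d)) : ℝ :=
  Real.sqrt (nsq d (g : Matrix (Fin 3) (Fin 3) (Od d)))

theorem result (d : ℕ) (hd : 1 ≤ d) (ε : ℝ) (hε : 0 < ε) : ∃ C : ℝ, 0 < C ∧
    ∀ q : ℕ, 1 ≤ q → (Gam d q).relIndex (Gam d 1) ≠ 0 ∧ ∀ T : ℝ, 1 ≤ T →
      {g | g ∈ Gam d q ∧ euclNorm d g ≤ T}.Finite ∧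
      (({g | g ∈ Gam d q ∧ euclNorm d g ≤ T}.ncard : ℕ) : ℝ) ≤
        C * (T ^ (4 + ε) / (((Gam d q).relIndex (Gam d 1) : ℕ) : ℝ) + T ^ 2) := by
  classical
  obtain ⟨C0, hC0, hW0⟩ := relIndex_bound d hd 1 one_pos
  obtain ⟨C, hC, h⟩ := main_index d hd (fun q => (Gam d q).relIndex (Gam d 1))
    (fun q hq => (hW0 q hq).1)
    (fun η hη => by
      obtain ⟨C1, hC1, h1⟩ := relIndex_bound d hd η hη
      exact ⟨C1, hC1, fun q hq => (h1 q hq).2⟩) ε hε
  refine ⟨C, hC, fun q hq => ⟨(hW0 q hq).1, fun T hT => ?_⟩⟩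
  have hT0 : 0 < T := by linarith
  set A := {g : Matrix.SpecialLinearGroup (Fin 3) (Od d) | g ∈ Gam d q ∧ euclNorm d g ≤ T} with hA
  have hfs : ∀ S : Finset (Matrix.SpecialLinearGroup (Fin 3) (Od d)), (∀ g ∈ S, g ∈ A) →
      (S.card : ℝ) ≤ C * (T ^ (4 + ε) / (((Gam d q).relIndex (Gam d 1) : ℕ) : ℝ) + T ^ 2) := by
    intro S hS
    have hinj : (S.image (fun g : Matrix.SpecialLinearGroup (Fin 3) (Od d) =>
        (g : Matrix (Fin 3) (Fin 3) (Od d)))).card = S.card :=
      Finset.card_image_of_injective _ Subtype.val_injective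
    rw [← hinj]
    apply h q hq T hT
    intro k hk
    obtain ⟨g, hg, rfl⟩ := Finset.mem_image.mp hk
    obtain ⟨hg1, hg2⟩ := hS g hg
    rw [mem_Gam_iff] at hg1
    refine ⟨hg1.1, hg1.2, ?_⟩
    have hn : (0 : ℝ) ≤ ((nsq d (g : Matrix (Fin 3) (Fin 3) (Od d)) : ℤ) : ℝ) := by
      have : 0 ≤ nsq d (g : Matrix (Fin 3) (Fin 3) (Od d)) := by
        unfold nsq
        apply Finset.sum_nonneg; intro i _
        apply Finset.sum_nonneg; intro j _
        rw [norm_sq]; positivity
      exact_mod_cast this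
    have h2 := (Real.sqrt_le_left hT0.le).mp hg2
    exact h2
  have hfin : A.Finite := by
    by_contra hinf
    obtain ⟨S, hS, hcard⟩ := (Set.not_finite.mp hinf : A.Infinite).exists_subset_card_eq
      (⌊C * (T ^ (4 + ε) / (((Gam d q).relIndex (Gam d 1) : ℕ) : ℝ) + T ^ 2)⌋₊ + 1)
    have h1 := hfs S (fun g hg => hS hg)
    rw [hcard] at h1
    have h2 := Nat.lt_floor_add_one
      (C * (T ^ (4 + ε) / (((Gam d q).relIndex (Gam d 1) : ℕ) : ℝ) + T ^ 2))
    push_cast at h1
    linarith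
  refine ⟨hfin, ?_⟩
  rw [Set.ncard_eq_toFinset_card A hfin]
  exact hfs _ (fun g hg => (hfin.mem_toFinset).mp hg)

end Pool.Agent.Results.MP_06ba09_nt.PicardMainConjecture
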