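import Pool.Agent.SO41.Main
import Pool.Agent.SO41.Grp

/-!
# The Main Conjecture of Sarnak and Xue for `Sp(1,1)` over orders of definite quaternion algebras

For `a, b ≥ 1` let `O = ℤ⟨1, i, j, ij⟩` with `i² = -a`, `j² = -b`, `ji = -ij`, and let `Γ(q)` be the
group of all invertible `2 × 2` matrices `g` over `O` with `g^* J g = J`, `J = diag(1, -1)`, and
`g ≡ 1 mod q`; let `W(q) = [Γ(1) : Γ(q)]`. For every `ε > 0` there is `C` such that for all `q ≥ 1` and
`T ≥ 1`
`#{g ∈ Γ(q) : ‖g‖ ≤ T} ≤ C (T^(6+ε) / W(q) + T^3)`.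

Proof in outline. Write `g = 1 + q [[a₁, b₁], [c₁, d₁]]`, `f = (b₁ - c₁^*) / q`, `G = f c₁`. The four
integers `nm c₁`, `nm c₁ - nm a₁`, `nm c₁ - nm d₁`, `nm f` lie in a box of volume `T^6 / q^10`. They
determine the Gram matrix, for the form `a x² + b y² + a b z²`, of the imaginary parts of `a₁` and `G`;
the number of pairs of integer vectors with a given Gram matrix is bounded by a gluing argument. Given
`G`, the element `c₁` lies in a left ideal and has known norm; such elements are counted with a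
Euclidean argument. The degenerate cases (`f = 0`, dependent imaginary parts) are counted separately.
-/

set_option autoImplicit false

namespace Pool.Agent.Results.MP_06ba09_nt.Sp11MainConjecture

open Matrix Pool.Agent.SO41

/-- The Euclidean norm of a matrix over the order: the square root of the sum of
`x₀² + a x₁² + b x₂² + a b x₃²` over its entries `x₀ + x₁ i + x₂ j + x₃ ij`. -/
noncomputable def euclNorm (a b : ℕ) (g : (Matrix (Fin 2) (Fin 2) (Qa a b))ˣ) : ℝ :=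
  Real.sqrt (nsq a b (g : Matrix (Fin 2) (Fin 2) (Qa a b)))

theorem result (a b : ℕ) (ha : 1 ≤ a) (hb : 1 ≤ b) (ε : ℝ) (hε : 0 < ε) : ∃ C : ℝ, 0 < C ∧
    ∀ q : ℕ, 1 ≤ q → (Gam a b q).relIndex (Gam a b 1) ≠ 0 ∧ ∀ T : ℝ, 1 ≤ T →
      {g | g ∈ Gam a b q ∧ euclNorm a b g ≤ T}.Finite ∧
      (({g | g ∈ Gam a b q ∧ euclNorm a b g ≤ T}.ncard : ℕ) : ℝ) ≤
        C * (T ^ (6 + ε) / (((Gam a b q).relIndex (Gam a b 1) : ℕ) : ℝ) + T ^ 3) := by
  classical
  obtain ⟨C0, hC0, hW0⟩ := relIndex_bound a b ha hb 1 one_pos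
  obtain ⟨C, hC, h⟩ := main_index a b ha hb (fun q => (Gam a b q).relIndex (Gam a b 1))
    (fun q hq => (hW0 q hq).1)
    (fun η hη => by
      obtain ⟨C1, hC1, h1⟩ := relIndex_bound a b ha hb η hη
      exact ⟨C1, hC1, fun q hq => (h1 q hq).2⟩) ε hε
  refine ⟨C, hC, fun q hq => ⟨(hW0 q hq).1, fun T hT => ?_⟩⟩
  have hT0 : 0 < T := by linarith
  set A := {g : (Matrix (Fin 2) (Fin 2) (Qa a b))ˣ | g ∈ Gam a b q ∧ euclNorm a b g ≤ T} with hA
  have hfs : ∀ S : Finset (Matrix (Fin 2) (Fin 2) (Qa a b))ˣ, (∀ g ∈ S, g ∈ A) →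
      (S.card : ℝ) ≤ C * (T ^ (6 + ε) / (((Gam a b q).relIndex (Gam a b 1) : ℕ) : ℝ) + T ^ 3) := by
    intro S hS
    have hinj : (S.image (fun g : (Matrix (Fin 2) (Fin 2) (Qa a b))ˣ =>
        (g : Matrix (Fin 2) (Fin 2) (Qa a b)))).card = S.card :=
      Finset.card_image_of_injective _ Units.val_injective
    rw [← hinj]
    apply h q hq T hT
    intro k hk
    obtain ⟨g, hg, rfl⟩ := Finset.mem_image.mp hk
    obtain ⟨hg1, hg2⟩ := hS g hg
    rw [mem_Gam_iff] at hg1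
    refine ⟨hg1.1, hg1.2, ?_⟩
    exact (Real.sqrt_le_left hT0.le).mp hg2
  have hfin : A.Finite := by
    by_contra hinf
    obtain ⟨S, hS, hcard⟩ := (Set.not_finite.mp hinf : A.Infinite).exists_subset_card_eq
      (⌊C * (T ^ (6 + ε) / (((Gam a b q).relIndex (Gam a b 1) : ℕ) : ℝ) + T ^ 3)⌋₊ + 1)
    have h1 := hfs S (fun g hg => hS hg)
    rw [hcard] at h1
    have h2 := Nat.lt_floor_add_one
      (C * (T ^ (6 + ε) / (((Gam a b q).relIndex (Gam a b 1) : ℕ) : ℝ) + T ^ 3))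
    push_cast at h1
    linarith
  refine ⟨hfin, ?_⟩
  rw [Set.ncard_eq_toFinset_card A hfin]
  exact hfs _ (fun g hg => (hfin.mem_toFinset).mp hg)

end Pool.Agent.Results.MP_06ba09_nt.Sp11MainConjecture
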